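import Mathlib

namespace Pool.Agent.H.MP_f91ac8_co

/-- `u` is the image under a coding of a fixed point of a `d`-uniform morphism -/
def IsAutomatic {A : Type} (d : ℕ) (u : ℕ → A) : Prop :=
  ∃ (B : Type) (_ : Fintype B) (σ : B → Fin d → B) (x : ℕ → B) (τ : B → A),
    (∀ (n : ℕ) (i : Fin d), x (d * n + i) = σ (x n) i) ∧ ∀ n, u n = τ (x n)

/-- least number of nonempty palindromes whose concatenation is the first `n` letters of `u` -/
noncomputable def PPL {A : Type} (u : ℕ → A) (n : ℕ) : ℕ :=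
  sInf {k | ∃ L : List (List A), L.length = k ∧ (∀ w ∈ L, w ≠ [] ∧ w.reverse = w) ∧
    L.flatten = List.ofFn (fun i : Fin n => u i)}

def IsRegular (d : ℕ) (f : ℕ → ℤ) : Prop :=
  (Submodule.span ℤ {g : ℕ → ℤ | ∃ e r : ℕ, r < d ^ e ∧ g = fun n => f (d ^ e * n + r)}).FG

end Pool.Agent.H.MP_f91ac8_co
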