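import Pool.Agent.H.MP_f91ac8_co.Defs
import Pool.Agent.H.MP_c2a681_co.C

namespace Pool.Agent.H.MP_f91ac8_co
open Pool.Agent.H.MP_c2a681_co

def pd (n : ℕ) : Bool := Nat.binaryRec false (fun b _ r => b && !r) n

lemma pd_PD : PD pd := by
  intro n
  constructor
  · have := Nat.binaryRec_eq (motive := fun _ => Bool) (zero := false)
      (bit := fun b _ r => b && !r) false n (Or.inl rfl)
    simpa [pd, Nat.bit] using this
  · have := Nat.binaryRec_eq (motive := fun _ => Bool) (zero := false)
      (bit := fun b _ r => b && !r) true n (Or.inl rfl)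
    simpa [pd, Nat.bit] using this

lemma pd_auto : IsAutomatic 2 pd := by
  refine ⟨Bool, inferInstance, fun b i => if i = 0 then false else !b, pd, id, fun n i => ?_,
    fun _ => rfl⟩
  fin_cases i
  · simpa using (pd_PD n).1
  · simpa using (pd_PD n).2

lemma ppl_least (u : ℕ → Bool) (n : ℕ) : IsLeast {k | Fac u k n} (PPL u n) := by
  constructor
  · have : ∃ k, k ∈ {k | ∃ L : List (List Bool), L.length = k ∧
        (∀ w ∈ L, w ≠ [] ∧ w.reverse = w) ∧ L.flatten = List.ofFn (fun i : Fin n => u i)} := by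
      refine ⟨_, (List.ofFn (fun i : Fin n => u i)).map (fun x => [x]), rfl, fun w hw => ?_, ?_⟩
      · obtain ⟨x, -, rfl⟩ := List.mem_map.1 hw
        simp
      · generalize List.ofFn (fun i : Fin n => u i) = l
        induction l <;> simp [*]
    obtain ⟨L, h1, h2, h3⟩ := Nat.sInf_mem this
    exact ⟨L, h1, fun w hw => (h2 w hw).2, h3⟩
  · rintro k ⟨L, rfl, h2, h3⟩
    refine le_trans ?_ (List.length_filter_le (fun w => !w.isEmpty) L)
    unfold PPL
    refine Nat.sInf_le ⟨L.filter (fun w => !w.isEmpty), rfl, fun w hw => ?_, ?_⟩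
    · obtain ⟨a, b⟩ := List.mem_filter.1 hw
      exact ⟨by simpa using b, h2 w a⟩
    · rw [List.flatten_filter_not_isEmpty, h3]

lemma main : ¬ IsRegular 2 (fun n => (PPL pd n : ℤ)) :=
  Pool.Agent.H.MP_c2a681_co.main pd_PD _ (ppl_least pd)

end Pool.Agent.H.MP_f91ac8_co
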